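import Pool.Agent.H20.PT.Hyp

/-!
# Project PT: the cocycle of the derivatives (`S_CS`) and metric nearness (`S_G2`)
-/

set_option autoImplicit false
set_option linter.unusedSectionVars false

open scoped Manifold ContDiff Topology
open Filter Set Metric

universe u v w

namespace Pool.Agent.H10.PT

open Pool.Agent.H20.PT
open Pool.Agent.H718R2.G Pool.Agent.TH80.OMS Pool.Agent.Y504.CO Pool.Agent.R773.TE

/-- The cocycle of the derivatives exists. -/
theorem main_CS : S_CS.{u} := by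
  classical
  intro d M _ _ 𝒜 f L δ κ hL hκ
  have h1 : ∀ x y, Near 𝒜 f κ x y → ∃ A : V d ≃L[ℝ] V d,
      HasFDerivAt (𝒜.loc f (𝒜.ix x) (𝒜.ix y)) (A : V d →L[ℝ] V d) (𝒜.c x) ∧
      ‖(A : V d →L[ℝ] V d)‖ ≤ L ∧ ‖(A.symm : V d →L[ℝ] V d)‖ ≤ L := by
    rintro x y ⟨h2, h3⟩
    have h4 : ‖𝒜.χ (𝒜.ix y) (f x)‖ ≤ 3 / 2 := by
      have h5 : ‖𝒜.c y‖ < 1 := 𝒜.ix_lt y
      have h6 := norm_sub_norm_le (𝒜.χ (𝒜.ix y) (f x)) (𝒜.c y)
      linarith
    obtain ⟨-, D, hD⟩ := hL.loc x (𝒜.ix y) h2 h4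
    have h7 : ‖𝒜.c x - 𝒜.c x‖ < δ := by
      rw [sub_self, norm_zero]
      exact hL.pos
    exact ⟨D (𝒜.c x), hD.der _ h7, hD.up _ h7, hD.low _ h7⟩
  choose A hA1 hA2 hA3 using h1
  refine ⟨{ step := Near 𝒜 f κ
            A := fun x y => if h : Near 𝒜 f κ x y then A x y h else 1
            C := L
            one_le := hL.one_le
            up := ?_
            low := ?_ }, fun x y => Iff.rfl, ?_⟩
  · intro x y h
    simp only [dif_pos h]
    exact hA2 x y h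
  · intro x y h
    simp only [dif_pos h]
    exact hA3 x y h
  · intro x y h
    simp only [dif_pos h]
    exact (hA1 x y h).fderiv.symm

/-- Points which are close to `f x` in the metric are near in the charts. -/
theorem main_G2 : S_G2.{u} := by
  intro d M _ _ _ 𝒜 f κ hκ
  have h1 : ∀ i : Fin 𝒜.q, ∃ δ : ℝ, 0 < δ ∧ ∀ w x' : M, x' ∈ (𝒜.χ i).source →
      ‖𝒜.χ i x'‖ < 1 → dist w x' < δ → w ∈ (𝒜.χ i).source ∧ ‖𝒜.χ i w - 𝒜.χ i x'‖ ≤ κ := by
    intro i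
    have hsub : closedBall (0 : V d) 1 ⊆ (𝒜.χ i).target :=
      (closedBall_subset_closedBall (by norm_num)).trans (𝒜.ball i)
    have hK : IsCompact ((𝒜.χ i).symm '' closedBall (0 : V d) 1) :=
      (isCompact_closedBall _ _).image_of_continuousOn ((𝒜.χ i).continuousOn_symm.mono hsub)
    obtain ⟨δ, hδ, h2⟩ := lebesgue_number_lemma_of_metric
      (c := fun z : V d => (𝒜.χ i).source ∩ (𝒜.χ i) ⁻¹' ball z (κ / 2)) hK
      (fun z => (𝒜.χ i).isOpen_inter_preimage isOpen_ball) (by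
        rintro _ ⟨z, hz, rfl⟩
        rw [mem_iUnion]
        refine ⟨z, (𝒜.χ i).map_target (hsub hz), ?_⟩
        rw [mem_preimage, (𝒜.χ i).right_inv (hsub hz)]
        exact mem_ball_self (by linarith))
    refine ⟨δ, hδ, ?_⟩
    intro w x' hx' hlt hd
    obtain ⟨z, hz⟩ := h2 x' ⟨𝒜.χ i x', by rw [mem_closedBall_zero_iff]; exact hlt.le,
      (𝒜.χ i).left_inv hx'⟩
    obtain ⟨h3, h4⟩ := hz (mem_ball.2 hd)
    obtain ⟨-, h5⟩ := hz (mem_ball_self hδ)
    refine ⟨h3, ?_⟩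
    rw [mem_preimage, mem_ball] at h4 h5
    rw [← dist_eq_norm]
    have h6 := dist_triangle_right (𝒜.χ i w) (𝒜.χ i x') z
    linarith
  choose δi hδi hN using h1
  have h2 : ∀ᶠ δ in 𝓝[>] (0 : ℝ), ∀ i, δ < δi i := eventually_all.2 fun i => by
    filter_upwards [Ioo_mem_nhdsGT (hδi i)] with δ hδ
    exact hδ.2
  obtain ⟨δ, h3, h4⟩ := (h2.and self_mem_nhdsWithin).exists
  refine ⟨δ, h4, ?_⟩
  intro x x' hd
  exact hN (𝒜.ix x') (f x) x' (𝒜.ix_src x') (𝒜.ix_lt x') (hd.trans (h3 _))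

end Pool.Agent.H10.PT
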