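import Pool.Agent.H10.PT.Pow

/-!
# Project PT2: chain recurrent points of iterates (`S_CRP`)
-/

set_option autoImplicit false

open Filter Set Metric

universe u v w

namespace Pool.Agent.H10.PT.Crp

open Pool.Agent.H20.PT Pool.Agent.H10.PT.Pw

variable {X : Type u} [MetricSpace X] [CompactSpace X]

/-- a short `δ`-chain follows the orbit of its first point -/
lemma shadow (f : X → X) (hf : Continuous f) (q : ℕ) : ∀ ε : ℝ, 0 < ε → ∃ δ : ℝ, 0 < δ ∧
    ∀ c : ℕ → X, (∀ i < q, dist (f (c i)) (c (i + 1)) < δ) → dist (f^[q] (c 0)) (c q) < ε := by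
  have huc : UniformContinuous f := CompactSpace.uniformContinuous_of_continuous hf
  induction q with
  | zero =>
    intro ε hε
    exact ⟨1, one_pos, fun c _ => by simpa using hε⟩
  | succ q ih =>
    intro ε hε
    obtain ⟨δ', hδ', h1⟩ := Metric.uniformContinuous_iff.mp huc (ε / 2) (by positivity)
    obtain ⟨δ'', hδ'', h2⟩ := ih δ' hδ'
    refine ⟨min δ'' (ε / 2), lt_min hδ'' (by positivity), fun c hc => ?_⟩
    have h3 := h2 c fun i hi => (hc i (by omega)).trans_le (min_le_left _ _)
    have h4 := h1 h3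
    have h5 := (hc q (by omega)).trans_le (min_le_right _ _)
    rw [Function.iterate_succ_apply']
    calc _ ≤ dist (f (f^[q] (c 0))) (f (c q)) + dist (f (c q)) (c (q + 1)) :=
          dist_triangle _ _ _
      _ < ε / 2 + ε / 2 := add_lt_add h4 h5
      _ = ε := add_halves ε

end Pool.Agent.H10.PT.Crp

namespace Pool.Agent.H10.PT.Crp

open Pool.Agent.H20.PT Pool.Agent.H10.PT.Pw

theorem main_CRP : S_CRP.{u} := by
  intro X _ _ f Q hQ x hx ε hε
  obtain ⟨δ, hδ, hsh⟩ := shadow (f : X → X) f.continuous Q ε hε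
  obtain ⟨n, c, hn, hc0, hcn, hc⟩ := hx δ hδ
  set c' : ℕ → X := fun i => c (i % n) with hc'
  have hstep : ∀ i : ℕ, dist (f (c' i)) (c' (i + 1)) < δ := by
    intro i
    have h1 : i % n < n := Nat.mod_lt _ hn
    have h2 : c' (i + 1) = c (i % n + 1) := by
      show c ((i + 1) % n) = c (i % n + 1)
      rw [Nat.add_mod]
      by_cases h : i % n + 1 = n
      · rw [h, hcn]
        rcases Nat.lt_or_ge 1 n with h3 | h3
        · rw [Nat.mod_eq_of_lt h3, h, Nat.mod_self, hc0]
        · have : n = 1 := by omega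
          subst this
          rw [Nat.mod_one, hc0]
      · have h3 : i % n + 1 < n := by omega
        rw [Nat.mod_eq_of_lt (show 1 < n by omega), Nat.mod_eq_of_lt h3]
    rw [h2]
    exact hc _ h1
  refine ⟨n, fun j => c' (Q * j), hn, ?_, ?_, ?_⟩
  · show c (Q * 0 % n) = x
    rw [mul_zero, Nat.zero_mod, hc0]
  · show c (Q * n % n) = x
    rw [Nat.mul_mod_left, hc0]
  · intro i _
    have h1 := hsh (fun j => c' (Q * i + j)) fun j _ => hstep (Q * i + j)
    show dist ((f ^ Q) (c' (Q * i))) (c' (Q * (i + 1))) < ε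
    rw [coe_pow', mul_add, mul_one]
    exact h1

end Pool.Agent.H10.PT.Crp
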