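import Pool.Agent.H20.PT.Hyp
import Pool.Graph.R_seed8.H721R2.Embed

/-!
# Project PT: norms of the charts along orbits (`S_E2`)
-/

set_option autoImplicit false
set_option linter.unusedSectionVars false

open scoped Manifold ContDiff Topology
open Filter Set Metric Bundle

universe u v w

namespace Pool.Agent.H10.PT

open Pool.Agent.H20.PT
open Pool.Agent.H718R2.G Pool.Agent.TH80.OMS Pool.Agent.Y504.CO Pool.Agent.R773.TE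
open Pool.Agent.H721R2 (IsTangentNorm dm dg dg_comp dg_inv iter_smooth iter_left iter_right)

section

variable {d : ℕ} {M : Type u} [TopologicalSpace M] [ChartedSpace (V d) M]

/-- the norm of a raw vector at `x` -/
noncomputable def tn (Nm : TangentBundle 𝓘(ℝ, V d) M → ℝ) (x : M) (v : V d) : ℝ :=
  Nm ⟨x, (v : TangentSpace 𝓘(ℝ, V d) x)⟩

/-- the derivative of the chart of `x` at `x` -/
noncomputable def ee (𝒜 : Atl d M) (x : M) : V d →L[ℝ] V d := dm (V d) (𝒜.χ (𝒜.ix x)) x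

/-- the derivative of the inverse of a chart -/
noncomputable def es (𝒜 : Atl d M) (i : Fin 𝒜.q) (z : V d) : V d →L[ℝ] V d :=
  mfderiv 𝓘(ℝ, V d) 𝓘(ℝ, V d) (𝒜.χ i).symm z

variable [IsManifold (𝓡 d) ∞ M]

lemma chart_mdiff (𝒜 : Atl d M) (i : Fin 𝒜.q) {x : M} (hx : x ∈ (𝒜.χ i).source) :
    MDifferentiableAt 𝓘(ℝ, V d) 𝓘(ℝ, V d) (𝒜.χ i) x :=
  (contMDiffAt_of_mem_maximalAtlas (𝒜.mem i) hx).mdifferentiableAt (by simp)

lemma symm_mdiff (𝒜 : Atl d M) (i : Fin 𝒜.q) {z : V d} (hz : z ∈ (𝒜.χ i).target) :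
    MDifferentiableAt 𝓘(ℝ, V d) 𝓘(ℝ, V d) (𝒜.χ i).symm z :=
  (contMDiffAt_symm_of_mem_maximalAtlas (𝒜.mem i) hz).mdifferentiableAt (by simp)

lemma es_dm (𝒜 : Atl d M) (i : Fin 𝒜.q) {x : M} (hx : x ∈ (𝒜.χ i).source) (v : V d) :
    es 𝒜 i (𝒜.χ i x) (dm (V d) (𝒜.χ i) x v) = v := by
  have h1 : (𝒜.χ i).symm ∘ (𝒜.χ i) =ᶠ[𝓝 x] id := by
    filter_upwards [(𝒜.χ i).open_source.mem_nhds hx] with y hy
    exact (𝒜.χ i).left_inv hy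
  have h2 := mfderiv_comp x (symm_mdiff 𝒜 i ((𝒜.χ i).map_source hx)) (chart_mdiff 𝒜 i hx)
  rw [h1.mfderiv_eq, mfderiv_id] at h2
  exact (congrArg (fun T : V d →L[ℝ] V d => T v) h2).symm

lemma fderiv_loc (𝒜 : Atl d M) (i j : Fin 𝒜.q) {f : M → M}
    (hf : ContMDiff 𝓘(ℝ, V d) 𝓘(ℝ, V d) 1 f) {x : M} (hx : x ∈ (𝒜.χ i).source)
    (hfx : f x ∈ (𝒜.χ j).source) (v : V d) :
    fderiv ℝ (𝒜.loc f i j) (𝒜.χ i x) (dm (V d) (𝒜.χ i) x v) =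
      dm (V d) (𝒜.χ j) (f x) (dg (V d) f x v) := by
  have h0 : (𝒜.χ i).symm (𝒜.χ i x) = x := (𝒜.χ i).left_inv hx
  have h1 : 𝒜.loc f i j ∘ (𝒜.χ i) =ᶠ[𝓝 x] (𝒜.χ j) ∘ f := by
    filter_upwards [(𝒜.χ i).open_source.mem_nhds hx] with y hy
    show 𝒜.χ j (f ((𝒜.χ i).symm (𝒜.χ i y))) = 𝒜.χ j (f y)
    rw [(𝒜.χ i).left_inv hy]
  have h2 : MDifferentiableAt 𝓘(ℝ, V d) 𝓘(ℝ, V d) (𝒜.loc f i j) (𝒜.χ i x) := by
    have h3 : MDifferentiableAt 𝓘(ℝ, V d) 𝓘(ℝ, V d) (𝒜.χ j) (f ((𝒜.χ i).symm (𝒜.χ i x))) := by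
      rw [h0]; exact chart_mdiff 𝒜 j hfx
    have h4 : MDifferentiableAt 𝓘(ℝ, V d) 𝓘(ℝ, V d) f ((𝒜.χ i).symm (𝒜.χ i x)) :=
      hf.mdifferentiableAt (by norm_num)
    have h5 := symm_mdiff 𝒜 i ((𝒜.χ i).map_source hx)
    have h6 : MDifferentiableAt 𝓘(ℝ, V d) 𝓘(ℝ, V d) ((𝒜.χ j) ∘ f)
        ((𝒜.χ i).symm (𝒜.χ i x)) := MDifferentiableAt.comp _ h3 h4
    have h7 : MDifferentiableAt 𝓘(ℝ, V d) 𝓘(ℝ, V d) (((𝒜.χ j) ∘ f) ∘ (𝒜.χ i).symm) (𝒜.χ i x) :=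
      MDifferentiableAt.comp (𝒜.χ i x) h6 h5
    exact h7
  have h3 := mfderiv_comp x h2 (chart_mdiff 𝒜 i hx)
  have h4 := mfderiv_comp x (chart_mdiff 𝒜 j hfx)
    (hf.mdifferentiableAt (by norm_num) : MDifferentiableAt 𝓘(ℝ, V d) 𝓘(ℝ, V d) f x)
  rw [h1.mfderiv_eq, h4, mfderiv_eq_fderiv] at h3
  exact (congrArg (fun T : V d →L[ℝ] V d => T v) h3).symm

lemma ee_inj (𝒜 : Atl d M) (x : M) : Function.Injective (ee 𝒜 x) := by
  intro v w h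
  have h1 := es_dm 𝒜 (𝒜.ix x) (𝒜.ix_src x) v
  have h2 := es_dm 𝒜 (𝒜.ix x) (𝒜.ix_src x) w
  unfold ee at h
  rw [h, h2] at h1
  exact h1.symm

/-- homogeneity -/
lemma tn_smul [IsManifold 𝓘(ℝ, V d) 1 M] {Nm : TangentBundle 𝓘(ℝ, V d) M → ℝ}
    (hN : IsTangentNorm Nm) (x : M) (c : ℝ) (v : V d) :
    tn Nm x (c • v) = |c| * tn Nm x v := hN.smul x c v

lemma tn_nonneg [IsManifold 𝓘(ℝ, V d) 1 M] {Nm : TangentBundle 𝓘(ℝ, V d) M → ℝ}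
    (hN : IsTangentNorm Nm) (x : M) (v : V d) : 0 ≤ tn Nm x v := by
  by_cases hv : v = 0
  · subst hv
    have := tn_smul hN x 0 (0 : V d)
    rw [zero_smul, abs_zero, zero_mul] at this
    exact this.ge
  · exact (hN.pos x v hv).le

/-- the comparison in one chart -/
lemma compare_chart [IsManifold 𝓘(ℝ, V d) 1 M] {Nm : TangentBundle 𝓘(ℝ, V d) M → ℝ}
    (hN : IsTangentNorm Nm) (𝒜 : Atl d M) (i : Fin 𝒜.q) :
    ∃ C : ℝ, ∀ z : V d, ‖z‖ ≤ 1 → ∀ w : V d,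
      tn Nm ((𝒜.χ i).symm z) (es 𝒜 i z w) ≤ C * ‖w‖ ∧
      ‖w‖ ≤ C * tn Nm ((𝒜.χ i).symm z) (es 𝒜 i z w) := by
  set K : Set (V d × V d) := closedBall (0 : V d) 1 ×ˢ sphere (0 : V d) 1 with hK
  have hKc : IsCompact K := (isCompact_closedBall _ _).prod (isCompact_sphere _ _)
  have hsub : closedBall (0 : V d) 1 ⊆ (𝒜.χ i).target :=
    (closedBall_subset_closedBall (by norm_num)).trans (𝒜.ball i)
  let g : V d × V d → ℝ := fun p => tn Nm ((𝒜.χ i).symm p.1) (es 𝒜 i p.1 p.2)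
  have hg : ContinuousOn g ((𝒜.χ i).target ×ˢ univ) := by
    have h1 : ContMDiffOn 𝓘(ℝ, V d) 𝓘(ℝ, V d) ∞ (𝒜.χ i).symm (𝒜.χ i).target :=
      contMDiffOn_symm_of_mem_maximalAtlas (𝒜.mem i)
    have h2 := h1.continuousOn_tangentMapWithin (by simp)
      (𝒜.χ i).open_target.uniqueMDiffOn
    have h3 : Continuous (fun p : V d × V d => (⟨p.1, p.2⟩ : TangentBundle 𝓘(ℝ, V d) (V d))) :=
      (tangentBundleModelSpaceHomeomorph 𝓘(ℝ, V d)).symm.continuous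
    have h4 := hN.continuous.comp_continuousOn (h2.comp h3.continuousOn
      (s := (𝒜.χ i).target ×ˢ univ) (fun p hp => hp.1))
    refine h4.congr ?_
    rintro ⟨z, w⟩ ⟨hz, -⟩
    have h5 := mfderivWithin_of_isOpen (I := 𝓘(ℝ, V d)) (I' := 𝓘(ℝ, V d)) (f := (𝒜.χ i).symm)
      (𝒜.χ i).open_target hz
    show Nm ⟨(𝒜.χ i).symm z, mfderiv 𝓘(ℝ, V d) 𝓘(ℝ, V d) (𝒜.χ i).symm z w⟩ =
      Nm ⟨(𝒜.χ i).symm z, mfderivWithin 𝓘(ℝ, V d) 𝓘(ℝ, V d) (𝒜.χ i).symm (𝒜.χ i).target z w⟩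
    rw [h5]
  have hgK : ContinuousOn g K := hg.mono fun p hp => ⟨hsub hp.1, trivial⟩
  have hpos : ∀ p ∈ K, 0 < g p := by
    rintro ⟨z, w⟩ ⟨hz, hw⟩
    apply hN.pos
    intro h0
    have h1 : (dm (V d) (𝒜.χ i) ((𝒜.χ i).symm z)) (es 𝒜 i z w) = w := by
      have h2 : (𝒜.χ i) ∘ (𝒜.χ i).symm =ᶠ[𝓝 z] id := by
        filter_upwards [(𝒜.χ i).open_target.mem_nhds (hsub hz)] with y hy
        exact (𝒜.χ i).right_inv hy
      have h3 := mfderiv_comp z (chart_mdiff 𝒜 i ((𝒜.χ i).map_target (hsub hz)))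
        (symm_mdiff 𝒜 i (hsub hz))
      rw [h2.mfderiv_eq, mfderiv_id] at h3
      exact (congrArg (fun T : V d →L[ℝ] V d => T w) h3).symm
    have h2 : es 𝒜 i z w = 0 := h0
    rw [h2, map_zero] at h1
    rw [← h1] at hw
    simp at hw
  obtain ⟨C₁, hC₁⟩ := hKc.exists_bound_of_continuousOn hgK
  obtain ⟨C₂, hC₂⟩ := hKc.exists_bound_of_continuousOn
    (hgK.inv₀ fun p hp => (hpos p hp).ne')
  refine ⟨max C₁ C₂, ?_⟩
  intro z hz w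
  by_cases hw : w = 0
  · subst hw
    have h1 : tn Nm ((𝒜.χ i).symm z) (es 𝒜 i z 0) = 0 := by
      have := tn_smul hN ((𝒜.χ i).symm z) 0 (0 : V d)
      rw [zero_smul, abs_zero, zero_mul] at this
      rw [map_zero]
      exact this
    rw [h1, norm_zero, mul_zero]
    exact ⟨le_rfl, le_rfl⟩
  · have hn : 0 < ‖w‖ := norm_pos_iff.mpr hw
    have hmem : (z, ‖w‖⁻¹ • w) ∈ K := by
      refine ⟨mem_closedBall_zero_iff.2 hz, ?_⟩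
      rw [mem_sphere_zero_iff_norm, norm_smul, norm_inv, norm_norm, inv_mul_cancel₀ hn.ne']
    have h1 : g (z, ‖w‖⁻¹ • w) = ‖w‖⁻¹ * tn Nm ((𝒜.χ i).symm z) (es 𝒜 i z w) := by
      show tn Nm ((𝒜.χ i).symm z) (es 𝒜 i z (‖w‖⁻¹ • w)) = _
      rw [map_smul, tn_smul hN, abs_of_pos (inv_pos.mpr hn)]
    have h2 := hC₁ _ hmem
    have h3 := hC₂ _ hmem
    have h4 := hpos _ hmem
    rw [Pi.inv_apply, norm_inv] at h3
    rw [Real.norm_of_nonneg h4.le] at h2 h3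
    have h5 : g (z, ‖w‖⁻¹ • w) ≤ max C₁ C₂ := h2.trans (le_max_left _ _)
    have h6 : (g (z, ‖w‖⁻¹ • w))⁻¹ ≤ max C₁ C₂ := h3.trans (le_max_right _ _)
    have h7 : tn Nm ((𝒜.χ i).symm z) (es 𝒜 i z w) = ‖w‖ * g (z, ‖w‖⁻¹ • w) := by
      rw [h1]; field_simp
    rw [h7]
    constructor
    · rw [mul_comm]
      exact mul_le_mul_of_nonneg_right h5 hn.le
    · have h8 : 1 ≤ max C₁ C₂ * g (z, ‖w‖⁻¹ • w) := by
        rw [← inv_mul_cancel₀ h4.ne']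
        exact mul_le_mul_of_nonneg_right h6 h4.le
      nlinarith

/-- the comparison -/
lemma compare_all [IsManifold 𝓘(ℝ, V d) 1 M] {Nm : TangentBundle 𝓘(ℝ, V d) M → ℝ}
    (hN : IsTangentNorm Nm) (𝒜 : Atl d M) :
    ∃ c : ℝ, 1 ≤ c ∧ ∀ (x : M) (v : V d), tn Nm x v ≤ c * ‖ee 𝒜 x v‖ ∧
      ‖ee 𝒜 x v‖ ≤ c * tn Nm x v := by
  choose C hC using compare_chart hN 𝒜
  have h0 : 0 ≤ ∑ i, |C i| := Finset.sum_nonneg fun i _ => abs_nonneg (C i)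
  refine ⟨1 + ∑ i, |C i|, by linarith, ?_⟩
  intro x v
  have h1 := hC (𝒜.ix x) (𝒜.χ (𝒜.ix x) x) (𝒜.ix_lt x).le (ee 𝒜 x v)
  have h2 : es 𝒜 (𝒜.ix x) (𝒜.χ (𝒜.ix x) x) (ee 𝒜 x v) = v := es_dm 𝒜 _ (𝒜.ix_src x) v
  rw [h2, (𝒜.χ (𝒜.ix x)).left_inv (𝒜.ix_src x)] at h1
  have h3 : C (𝒜.ix x) ≤ 1 + ∑ i, |C i| := by
    have h4 := Finset.single_le_sum (f := fun i => |C i|) (s := Finset.univ)
      (fun i _ => abs_nonneg (C i)) (Finset.mem_univ (𝒜.ix x))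
    have h5 := le_abs_self (C (𝒜.ix x))
    linarith
  exact ⟨h1.1.trans (mul_le_mul_of_nonneg_right h3 (norm_nonneg _)),
    h1.2.trans (mul_le_mul_of_nonneg_right h3 (tn_nonneg hN _ _))⟩

lemma orbZ_succ (f : M ≃ₜ M) (x : M) (b : ℤ) : orbZ f x (b + 1) = f (orbZ f x b) := by
  unfold orbZ
  rw [add_comm, zpow_one_add]
  rfl

lemma iter_orbZ (f : M ≃ₜ M) (x : M) (a : ℤ) (m : ℕ) :
    f^[m] (orbZ f x a) = orbZ f x (a + m) := by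
  induction m with
  | zero => simp
  | succ m ih =>
    rw [Function.iterate_succ_apply', ih, ← orbZ_succ]
    congr 1
    push_cast
    ring

lemma near_self (𝒜 : Atl d M) (f : M → M) {κ : ℝ} (hκ : 0 ≤ κ) (x : M) : Near 𝒜 f κ x (f x) := by
  refine ⟨𝒜.ix_src _, ?_⟩
  unfold Atl.c
  rw [sub_self, norm_zero]
  exact hκ

lemma fw_ee [IsManifold 𝓘(ℝ, V d) 1 M] {f : M ≃ₜ M}
    (hf : ContMDiff 𝓘(ℝ, V d) 𝓘(ℝ, V d) 1 f) {𝒜 : Atl d M}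
    {κ : ℝ} {S : CSys M (V d)} (hκ : 0 ≤ κ) (hS : IsCoc 𝒜 f κ S) (x : M) (a : ℤ) (m : ℕ)
    (v : V d) : S.fw (orbZ f x) a m (ee 𝒜 (orbZ f x a) v) =
      ee 𝒜 (orbZ f x (a + m)) (dg (V d) (f^[m]) (orbZ f x a) v) := by
  induction m with
  | zero =>
    have h1 : dg (V d) (f^[0]) (orbZ f x a) v = v := by
      show mfderiv 𝓘(ℝ, V d) 𝓘(ℝ, V d) id (orbZ f x a) v = v
      rw [mfderiv_id]; rfl
    rw [h1]
    simp only [Nat.cast_zero, add_zero]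
    rfl
  | succ m ih =>
    have h1 : S.fw (orbZ f x) a (m + 1) (ee 𝒜 (orbZ f x a) v) =
        S.A (orbZ f x (a + m)) (orbZ f x (a + m + 1)) (S.fw (orbZ f x) a m
          (ee 𝒜 (orbZ f x a) v)) := rfl
    have h2 : (a + ((m + 1 : ℕ) : ℤ)) = a + m + 1 := by push_cast; ring
    rw [h1, ih, h2, orbZ_succ]
    set y := orbZ f x (a + m) with hy
    have h3 := hS.2 y (f y) (near_self 𝒜 f hκ y)
    have h4 := fderiv_loc 𝒜 (𝒜.ix y) (𝒜.ix (f y)) hf (𝒜.ix_src y) (𝒜.ix_src (f y))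
      (dg (V d) (f^[m]) (orbZ f x a) v)
    have h5 : S.A y (f y) (ee 𝒜 y (dg (V d) (f^[m]) (orbZ f x a) v)) =
        (S.A y (f y) : V d →L[ℝ] V d) (ee 𝒜 y (dg (V d) (f^[m]) (orbZ f x a) v)) := rfl
    rw [h5, h3]
    have h6 : dg (V d) (f^[m + 1]) (orbZ f x a) v =
        dg (V d) f y (dg (V d) (f^[m]) (orbZ f x a) v) := by
      rw [Function.iterate_succ', dg_comp _ _ (iter_smooth f hf m) hf, iter_orbZ]
    rw [h6]
    exact h4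

end

theorem main_E2 : S_E2.{u} := by
  intro d M _ _ _ _ _ _ f hf hf' Nm hN 𝒜 κ S hκ hS
  obtain ⟨c, hc, hcmp⟩ := compare_all hN 𝒜
  let e' : ∀ x : M, V d ≃ₗ[ℝ] V d := fun x =>
    LinearEquiv.ofInjectiveEndo (ee 𝒜 x : V d →ₗ[ℝ] V d) (ee_inj 𝒜 x)
  let e : ∀ x : M, TangentSpace 𝓘(ℝ, V d) x ≃ₗ[ℝ] V d := e'
  refine ⟨c, e, hc, ?_⟩
  intro x v m
  have h0 : orbZ f x 0 = x := by unfold orbZ; rw [zpow_zero]; rfl
  constructor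
  · have h1 := fw_ee hf hκ hS x 0 m v
    rw [← iter_orbZ, h0] at h1
    have h2 := hcmp (f^[m] x) (dg (V d) (f^[m]) x v)
    rw [← h1] at h2
    exact h2
  · have h1 : orbZ f x (-m) = f.symm^[m] x := by
      have h2 := iter_orbZ f x (-m) m
      rw [neg_add_cancel, h0] at h2
      have h3 := iter_left f m (orbZ f x (-m))
      rw [h2] at h3
      exact h3.symm
    have h2 := fw_ee hf hκ hS x (-m) m (dg (V d) (f.symm^[m]) x v)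
    rw [neg_add_cancel, h0, h1, dg_inv _ _ (iter_smooth f.symm hf' m) (iter_smooth f hf m)
      (iter_right f m)] at h2
    have h3 : (S.fw (orbZ f x) (-m) m)⁻¹ (ee 𝒜 x v) =
        ee 𝒜 (f.symm^[m] x) (dg (V d) (f.symm^[m]) x v) := by
      rw [← h2]
      exact (S.fw (orbZ f x) (-m) m).symm_apply_apply _
    have h4 := hcmp (f.symm^[m] x) (dg (V d) (f.symm^[m]) x v)
    rw [← h3] at h4
    exact h4

end Pool.Agent.H10.PT
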