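import Pool.Agent.H20.PT.PowDef

/-!
# Project PT2: products of closed manifolds exist (`S_EXP`)
-/

set_option autoImplicit false
set_option linter.unusedSectionVars false

open scoped Manifold ContDiff Topology
open Filter Set Metric

universe u v w

namespace Pool.Agent.H10.PT.Exp

open Pool.Agent.H20.PT
open Pool.Agent.H718R2.G Pool.Agent.TH80.OMS Pool.Agent.Y504.CO Pool.Agent.R773.TE

variable {d e : ℕ}

lemma finrank_eq (d e : ℕ) : Module.finrank ℝ (V d × V e) = Module.finrank ℝ (V (d + e)) := by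
  rw [Module.finrank_prod, finrank_euclideanSpace_fin, finrank_euclideanSpace_fin,
    finrank_euclideanSpace_fin]

/-- a linear homeomorphism -/
noncomputable def LL (d e : ℕ) : (V d × V e) ≃L[ℝ] V (d + e) :=
  ContinuousLinearEquiv.ofFinrankEq (finrank_eq d e)

/-- the same, on the model space -/
noncomputable def LH (d e : ℕ) : ModelProd (V d) (V e) ≃ₜ V (d + e) := (LL d e).toHomeomorph

variable (d e) in
/-- the charts composed with `L` -/
@[instance_reducible]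
noncomputable def cs (P : Type u) [TopologicalSpace P] [ChartedSpace (ModelProd (V d) (V e)) P] :
    ChartedSpace (V (d + e)) P where
  atlas := {c | ∃ c₀ ∈ atlas (ModelProd (V d) (V e)) P, c = c₀.transHomeomorph (LH d e)}
  chartAt p := (chartAt (ModelProd (V d) (V e)) p).transHomeomorph (LH d e)
  mem_chart_source p := mem_chart_source (ModelProd (V d) (V e)) p
  chart_mem_atlas p := ⟨_, chart_mem_atlas _ p, rfl⟩

section

variable {P : Type u} [TopologicalSpace P] [ChartedSpace (ModelProd (V d) (V e)) P]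
  [IsManifold ((𝓡 d).prod (𝓡 e)) ∞ P]

theorem man_cs : @IsManifold ℝ _ (V (d + e)) _ _ (V (d + e)) _ (𝓡 (d + e)) ∞ P _ (cs d e P) := by
  let _ := cs d e P
  refine isManifold_of_contDiffOn (𝓡 (d + e)) ∞ P ?_
  rintro _ _ ⟨c, hc, rfl⟩ ⟨c', hc', rfl⟩
  have h1 : (c.symm ≫ₕ c') ∈ contDiffGroupoid ∞ ((𝓡 d).prod (𝓡 e)) :=
    StructureGroupoid.compatible _ hc hc'
  rw [contDiffGroupoid, mem_groupoid_of_pregroupoid] at h1
  have h2 : ContDiffOn ℝ ∞ (((𝓡 d).prod (𝓡 e)) ∘ (c.symm ≫ₕ c') ∘ ((𝓡 d).prod (𝓡 e)).symm)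
      (((𝓡 d).prod (𝓡 e)).symm ⁻¹' (c.symm ≫ₕ c').source ∩ range ((𝓡 d).prod (𝓡 e))) := h1.1
  have h3 := ((LL d e).contDiff.comp_contDiffOn h2).comp
    (s := (LL d e).symm ⁻¹' (((𝓡 d).prod (𝓡 e)).symm ⁻¹' (c.symm ≫ₕ c').source ∩
      range ((𝓡 d).prod (𝓡 e)))) (LL d e).symm.contDiff.contDiffOn (fun z hz => hz)
  refine h3.mono ?_
  rintro z ⟨hz, -⟩
  refine ⟨hz, ?_⟩
  rw [ModelWithCorners.range_eq_univ]
  trivial

/-- the identity map to the new manifold is smooth -/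
theorem smooth_to : @ContMDiff ℝ _ _ _ _ _ _ ((𝓡 d).prod (𝓡 e)) P _ _ _ _ _ _ _
    (𝓡 (d + e)) P _ (cs d e P) ∞ (id : P → P) := by
  let _ := cs d e P
  intro x
  refine contMDiffAt_iff.mpr ⟨continuousAt_id, ?_⟩
  refine ContDiffAt.contDiffWithinAt ?_
  refine ((LL d e).contDiff.contDiffAt).congr_of_eventuallyEq ?_
  filter_upwards [extChartAt_target_mem_nhds (I := (𝓡 d).prod (𝓡 e)) x] with z hz
  show LL d e ((extChartAt ((𝓡 d).prod (𝓡 e)) x) ((extChartAt ((𝓡 d).prod (𝓡 e)) x).symm z)) =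
    LL d e z
  rw [(extChartAt ((𝓡 d).prod (𝓡 e)) x).right_inv hz]

/-- the identity map from the new manifold is smooth -/
theorem smooth_from : @ContMDiff ℝ _ _ _ _ _ _ (𝓡 (d + e)) P _ (cs d e P) _ _ _ _ _
    ((𝓡 d).prod (𝓡 e)) P _ _ ∞ (id : P → P) := by
  let _ := cs d e P
  intro x
  refine contMDiffAt_iff.mpr ⟨continuousAt_id, ?_⟩
  refine ContDiffAt.contDiffWithinAt ?_
  refine ((LL d e).symm.contDiff.contDiffAt).congr_of_eventuallyEq ?_
  have h1 : (LL d e).symm ⁻¹' (extChartAt ((𝓡 d).prod (𝓡 e)) x).target ∈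
      𝓝 (LL d e (extChartAt ((𝓡 d).prod (𝓡 e)) x x)) := by
    refine (LL d e).symm.continuous.continuousAt.preimage_mem_nhds ?_
    rw [ContinuousLinearEquiv.symm_apply_apply]
    exact extChartAt_target_mem_nhds (I := (𝓡 d).prod (𝓡 e)) x
  filter_upwards [h1] with z hz
  show (extChartAt ((𝓡 d).prod (𝓡 e)) x) ((extChartAt ((𝓡 d).prod (𝓡 e)) x).symm
    ((LL d e).symm z)) = (LL d e).symm z
  exact (extChartAt ((𝓡 d).prod (𝓡 e)) x).right_inv hz

end

variable (d e) in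
/-- the identity map as a diffeomorphism -/
noncomputable def theta (r : ℕ∞ω) (hr : r ≤ ∞) (P : Type u) [TopologicalSpace P]
    [ChartedSpace (ModelProd (V d) (V e)) P] [IsManifold ((𝓡 d).prod (𝓡 e)) ∞ P] :
    @Diffeomorph ℝ _ _ _ _ _ _ _ _ _ _ _ ((𝓡 d).prod (𝓡 e)) (𝓡 (d + e)) P _ _ P _ (cs d e P) r :=
  let _ := cs d e P
  { toEquiv := Equiv.refl P
    contMDiff_toFun := smooth_to.of_le hr
    contMDiff_invFun := smooth_from.of_le hr }

theorem main_EXP : S_EXP.{u} := by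
  intro r X Y
  have h1 : IsManifold ((𝓡 X.dim).prod (𝓡 Y.dim)) ∞ (X.pt × Y.pt) := inferInstance
  let cz : ChartedSpace (V (X.dim + Y.dim)) (X.pt × Y.pt) := cs X.dim Y.dim (X.pt × Y.pt)
  have hr : (r : ℕ∞ω) ≤ ∞ := by exact_mod_cast le_top
  let T := theta X.dim Y.dim (r : ℕ∞ω) hr (X.pt × Y.pt)
  let G : DiffM (X.dim + Y.dim) (X.pt × Y.pt) r := (T.symm.trans (X.map.prodCongr Y.map)).trans T
  let Z : Sys.{u} r :=
    { dim := X.dim + Y.dim
      pt := X.pt × Y.pt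
      chr := cz
      man := man_cs
      map := G }
  exact ⟨Z, theta X.dim Y.dim ∞ le_rfl (X.pt × Y.pt), fun x y => rfl⟩

end Pool.Agent.H10.PT.Exp
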