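import Pool.Agent.H20.PT.Pow

/-!
# Project PT2: full shifts of iterates (`S_K1`)
-/

set_option autoImplicit false

open Filter Set Metric

universe u v w

namespace Pool.Agent.H10.PT

open Pool.Agent.H20.PT

theorem main_K1 : S_K1.{v} := by
  rintro N _ g k p hp ⟨C, hC, hd, h⟩
  refine ⟨C, hC, hd, fun n s hn => ?_⟩
  obtain ⟨y, hy, hj⟩ := h (p * n) (fun j => s (j / p)) (by nlinarith)
  refine ⟨y, ?_, fun j hjn => ?_⟩
  · rw [← Function.iterate_mul]
    exact hy
  · rw [← Function.iterate_mul]
    have h1 := hj (p * j) (by nlinarith)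
    rw [Nat.mul_div_cancel_left j (by omega)] at h1
    exact h1

end Pool.Agent.H10.PT
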