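import Pool.Agent.H20.PT.Pow
import Pool.Graph.R_seed8.H721R2.Riem

/-!
# Project PT2: from an iterate to the map (`S_POW`)
-/

set_option autoImplicit false
set_option linter.unusedSectionVars false

open scoped Manifold ContDiff Topology
open Filter Set Metric Bundle

universe u v w

namespace Pool.Agent.H10.PT.Pw

open Pool.Agent.H20.PT
open Pool.Agent.H718R2.G Pool.Agent.TH80.OMS Pool.Agent.Y504.CO Pool.Agent.R773.TE
open Pool.Agent.H721R2 (IsTangentNorm dm dg dg_comp dm_comp iter_smooth tnm tnm_nonneg tnm_compare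
  exists_uniform_const local_all)

section

variable {d : ℕ} {M : Type u} [MetricSpace M] [CompactSpace M] [ChartedSpace (V d) M]
  [IsManifold (𝓡 d) ∞ M] [IsManifold 𝓘(ℝ, V d) 1 M]

/-- the tangent map of a `C¹` map is bounded -/
lemma bnd {Nm : TangentBundle 𝓘(ℝ, V d) M → ℝ} (hN : IsTangentNorm Nm) {G : M → M}
    (hG : ContMDiff 𝓘(ℝ, V d) 𝓘(ℝ, V d) 1 G) :
    ∃ c : ℝ, 1 ≤ c ∧ ∀ (x : M) (v : V d), tnm Nm (G x) (dg (V d) G x v) ≤ c * tnm Nm x v := by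
  obtain ⟨n, e, he, -, hinj⟩ := exists_embedding_euclidean_of_compact (I := 𝓡 d) (M := M)
  have he1 : ContMDiff 𝓘(ℝ, V d) 𝓘(ℝ, EuclideanSpace ℝ (Fin n)) 1 e := he.of_le (by simp)
  have hinj' : ∀ x, Function.Injective (dm (V d) e x) := hinj
  obtain ⟨R, hR, hcmp⟩ := tnm_compare hN e he1 hinj'
  have hh : ContMDiff 𝓘(ℝ, V d) 𝓘(ℝ, EuclideanSpace ℝ (Fin n)) 1 (e ∘ G) := he1.comp hG
  obtain ⟨C, hC, hb⟩ := exists_uniform_const (M := M)
    (fun C x => ∀ v : V d, ‖dm (V d) (e ∘ G) x v‖ ≤ C * ‖dm (V d) e x v‖)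
    (fun C C' x hCC' h v => (h v).trans (mul_le_mul_of_nonneg_right hCC' (norm_nonneg _)))
    (fun x₀ => by
      obtain ⟨⟨C, hC, h1⟩, -⟩ := local_all e he1 hinj' (e ∘ G) hh x₀
      refine ⟨C * C, ?_⟩
      filter_upwards [h1] with x hx v
      obtain ⟨h5, h6⟩ := hx v
      calc _ ≤ C * ‖dm (V d) (extChartAt 𝓘(ℝ, V d) x₀) x v‖ := h6
        _ ≤ C * (C * ‖dm (V d) e x v‖) := mul_le_mul_of_nonneg_left h5 hC.le
        _ = C * C * ‖dm (V d) e x v‖ := by ring)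
  refine ⟨max 1 (R * (C * R)), le_max_left _ _, fun x v => ?_⟩
  have h1 := (hcmp (G x) (dg (V d) G x v)).2
  rw [← dm_comp e he1 G hG] at h1
  have h2 := hb x v
  have h3 := (hcmp x v).1
  calc _ ≤ R * ‖dm (V d) (e ∘ G) x v‖ := h1
    _ ≤ R * (C * ‖dm (V d) e x v‖) := mul_le_mul_of_nonneg_left h2 hR.le
    _ ≤ R * (C * (R * tnm Nm x v)) :=
      mul_le_mul_of_nonneg_left (mul_le_mul_of_nonneg_left h3 hC.le) hR.le
    _ = R * (C * R) * tnm Nm x v := by ring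
    _ ≤ _ := mul_le_mul_of_nonneg_right (le_max_right _ _) (tnm_nonneg hN _ _)

lemma bnd_iter {Nm : TangentBundle 𝓘(ℝ, V d) M → ℝ} (_hN : IsTangentNorm Nm) {G : M → M}
    (hG : ContMDiff 𝓘(ℝ, V d) 𝓘(ℝ, V d) 1 G) {c : ℝ} (hc : 1 ≤ c)
    (hb : ∀ (x : M) (v : V d), tnm Nm (G x) (dg (V d) G x v) ≤ c * tnm Nm x v) (i : ℕ) :
    ∀ (x : M) (v : V d), tnm Nm (G^[i] x) (dg (V d) (G^[i]) x v) ≤ c ^ i * tnm Nm x v := by
  induction i with
  | zero =>
    intro x v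
    have h1 : dg (V d) (G^[0]) x v = v := by
      show mfderiv 𝓘(ℝ, V d) 𝓘(ℝ, V d) id x v = v
      rw [mfderiv_id]; rfl
    rw [h1, pow_zero, one_mul]
    rfl
  | succ i ih =>
    intro x v
    rw [Function.iterate_succ, dg_comp _ _ hG (iter_smooth G hG i)]
    refine (ih (G x) (dg (V d) G x v)).trans ?_
    rw [pow_succ, mul_assoc]
    exact mul_le_mul_of_nonneg_left (hb x v) (by positivity)

/-- the key estimate: `n = Q k + i` -/
lemma key {Nm : TangentBundle 𝓘(ℝ, V d) M → ℝ} (hN : IsTangentNorm Nm) {G : M → M}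
    (hG : ContMDiff 𝓘(ℝ, V d) 𝓘(ℝ, V d) 1 G) {c : ℝ} (hc : 1 ≤ c)
    (hb : ∀ (x : M) (v : V d), tnm Nm (G x) (dg (V d) G x v) ≤ c * tnm Nm x v)
    {Q : ℕ} (hQ : 1 ≤ Q) {C a a' : ℝ} (ha0 : 0 < a) (ha0' : 0 < a') (ha1' : a' < 1)
    (haQ : a' ^ Q = a) {x : M} {s v : V d}
    (h : ∀ k : ℕ, tnm Nm (G^[Q * k] x) (dg (V d) (G^[Q * k]) x s) ≤ C * a ^ k * tnm Nm x v)
    (n : ℕ) : tnm Nm (G^[n] x) (dg (V d) (G^[n]) x s) ≤
      (c ^ Q * |C| / a) * a' ^ n * tnm Nm x v := by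
  set k := n / Q with hk
  set i := n % Q with hi
  have hn : n = i + Q * k := (Nat.mod_add_div n Q).symm
  have hiQ : i < Q := Nat.mod_lt _ hQ
  have h0 : 0 ≤ tnm Nm x v := tnm_nonneg hN _ _
  have e1 : dg (V d) (G^[n]) x s =
      dg (V d) (G^[i]) (G^[Q * k] x) (dg (V d) (G^[Q * k]) x s) := by
    rw [hn, Function.iterate_add, dg_comp _ _ (iter_smooth G hG _) (iter_smooth G hG _)]
  have e2 : G^[n] x = G^[i] (G^[Q * k] x) := by
    rw [← Function.iterate_add_apply, ← hn]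
  have h1 : tnm Nm (G^[n] x) (dg (V d) (G^[n]) x s) ≤ c ^ i * (C * a ^ k * tnm Nm x v) := by
    rw [e1, e2]
    exact (bnd_iter hN hG hc hb i _ _).trans (mul_le_mul_of_nonneg_left (h k) (by positivity))
  have h2 : c ^ i * (C * a ^ k * tnm Nm x v) ≤ c ^ Q * (|C| * a ^ k * tnm Nm x v) := by
    have h3 : C * a ^ k * tnm Nm x v ≤ |C| * a ^ k * tnm Nm x v :=
      mul_le_mul_of_nonneg_right (mul_le_mul_of_nonneg_right (le_abs_self C) (by positivity)) h0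
    calc _ ≤ c ^ i * (|C| * a ^ k * tnm Nm x v) := mul_le_mul_of_nonneg_left h3 (by positivity)
      _ ≤ _ := mul_le_mul_of_nonneg_right (pow_le_pow_right₀ hc hiQ.le) (by positivity)
  have h3 : a ^ k * a ≤ a' ^ n := by
    rw [hn, pow_add, pow_mul, haQ, mul_comm]
    refine mul_le_mul_of_nonneg_right ?_ (by positivity)
    rw [← haQ]
    exact pow_le_pow_of_le_one ha0'.le ha1'.le hiQ.le
  have h4 : a ^ k ≤ a' ^ n / a := by
    rw [le_div_iff₀ ha0]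
    exact h3
  calc _ ≤ c ^ Q * (|C| * a ^ k * tnm Nm x v) := h1.trans h2
    _ ≤ c ^ Q * (|C| * (a' ^ n / a) * tnm Nm x v) := by
      refine mul_le_mul_of_nonneg_left (mul_le_mul_of_nonneg_right
        (mul_le_mul_of_nonneg_left h4 (abs_nonneg C)) h0) (by positivity)
    _ = _ := by ring

end

lemma coe_pow' {X : Type u} [TopologicalSpace X] (f : X ≃ₜ X) (Q : ℕ) :
    (⇑(f ^ Q) : X → X) = f^[Q] := by
  induction Q with
  | zero => rfl
  | succ Q ih =>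
    rw [pow_succ, Function.iterate_succ, ← ih]
    rfl

lemma iter_pow {X : Type u} [TopologicalSpace X] (f : X ≃ₜ X) (Q k : ℕ) :
    (⇑(f ^ Q) : X → X)^[k] = f^[Q * k] := by
  rw [coe_pow', Function.iterate_mul]

lemma iter_pow_symm {X : Type u} [TopologicalSpace X] (f : X ≃ₜ X) (Q k : ℕ) :
    (⇑(f ^ Q).symm : X → X)^[k] = f.symm^[Q * k] := by
  have h : (f ^ Q).symm = f.symm ^ Q := by
    show (f ^ Q)⁻¹ = (f⁻¹) ^ Q
    rw [inv_pow]
  rw [h, iter_pow]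

theorem main_POW : S_POW.{u} := by
  intro d M _ _ _ _ _ f hf hf' Nm hN Q hQ K
  constructor
  · intro C a ha0 ha1 hS
    obtain ⟨c₁, hc₁, hb₁⟩ := bnd hN hf
    obtain ⟨c₂, hc₂, hb₂⟩ := bnd hN hf'
    set c := max c₁ c₂ with hcdef
    have hc : 1 ≤ c := hc₁.trans (le_max_left _ _)
    have hbf : ∀ (x : M) (v : V d), tnm Nm (f x) (dg (V d) f x v) ≤ c * tnm Nm x v :=
      fun x v => (hb₁ x v).trans (mul_le_mul_of_nonneg_right (le_max_left _ _) (tnm_nonneg hN _ _))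
    have hbf' : ∀ (x : M) (v : V d), tnm Nm (f.symm x) (dg (V d) f.symm x v) ≤ c * tnm Nm x v :=
      fun x v => (hb₂ x v).trans (mul_le_mul_of_nonneg_right (le_max_right _ _) (tnm_nonneg hN _ _))
    set a' : ℝ := a ^ ((Q : ℝ)⁻¹) with ha'
    have hQ0 : Q ≠ 0 := by omega
    have haQ : a' ^ Q = a := Real.rpow_inv_natCast_pow ha0.le hQ0
    have ha0' : 0 < a' := Real.rpow_pos_of_pos ha0 _
    have ha1' : a' < 1 := Real.rpow_lt_one ha0.le ha1 (by positivity)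
    refine ⟨c ^ Q * |C| / a, a', ha0', ha1', ?_⟩
    intro x hx v
    obtain ⟨s, t, hst, h⟩ := hS x hx v
    refine ⟨s, t, hst, fun n => ⟨?_, ?_⟩⟩
    · refine key hN hf hc hbf hQ ha0 ha0' ha1' haQ (x := x) (s := s) (v := v) ?_ n
      intro k
      have h1 := (h k).1
      rw [iter_pow] at h1
      exact h1
    · refine key hN hf' hc hbf' hQ ha0 ha0' ha1' haQ (x := x) (s := t) (v := v) ?_ n
      intro k
      have h1 := (h k).2
      rw [iter_pow_symm] at h1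
      exact h1
  · intro h x hx v B h1 h2
    refine h x hx v B (fun k => ?_) (fun k => ?_)
    · rw [iter_pow]
      exact h1 _
    · rw [iter_pow_symm]
      exact h2 _

end Pool.Agent.H10.PT.Pw
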