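import Pool.Agent.H20.PT.Skew
import Pool.Agent.H10.PT.E2

/-!
# Project PT3: no bounded orbits of vectors over the chain recurrent set imply no closed chains of
vectors (`S_SS`, Sacker–Sell); helper10 for helper20
-/

set_option autoImplicit false
set_option linter.unusedSectionVars false

open scoped Manifold ContDiff Topology
open Filter Set Metric Bundle

universe u v w

namespace Pool.Agent.H10.PT.SS

open Pool.Agent.H20.PT Pool.Agent.H10.PT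
open Pool.Agent.H718R2.G Pool.Agent.TH80.OMS Pool.Agent.Y504.CO Pool.Agent.R773.TE
open Pool.Agent.H721R2 (IsTangentNorm dm dg dg_comp dg_inv iter_smooth iter_left iter_right)
open Pool.Agent.H728R2.OS (ChainRec)

/-- the index of a periodic extension -/
lemma ext_step {n : ℕ} (hn : 1 ≤ n) {α : Type*} (x : ℕ → α) (h : x n = x 0) (t : ℤ) :
    (t % (n : ℤ)).toNat < n ∧ x (((t + 1) % (n : ℤ)).toNat) = x ((t % (n : ℤ)).toNat + 1) := by
  have hn0 : (0 : ℤ) < n := by exact_mod_cast hn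
  have h1 : 0 ≤ t % (n : ℤ) := Int.emod_nonneg _ hn0.ne'
  have h2 : t % (n : ℤ) < n := Int.emod_lt_of_pos _ hn0
  have h3 : (t + 1) % (n : ℤ) = (t % n + 1) % n := by simp
  refine ⟨by omega, ?_⟩
  by_cases h4 : t % (n : ℤ) + 1 < n
  · rw [h3, Int.emod_eq_of_lt (by omega) h4]
    congr 1
    omega
  · have h5 : t % (n : ℤ) + 1 = n := by omega
    rw [h3, h5, Int.emod_self]
    have h6 : (t % (n : ℤ)).toNat + 1 = n := by omega
    rw [h6, h]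
    rfl

section

variable {d : ℕ} {M : Type u} [TopologicalSpace M] [ChartedSpace (V d) M]

lemma unit_chain (𝒜 : Atl d M) (f : M → M) {κ : ℝ} (h : ¬ NoChain 𝒜 f κ) :
    ∃ (n : ℕ) (X : ℤ → M) (W : ℤ → V d), 1 ≤ n ∧ (∀ t, X (t + n) = X t) ∧
      (∀ t, Near 𝒜 f κ (X t) (X (t + 1))) ∧
      (∀ t, ‖fderiv ℝ (𝒜.loc f (𝒜.ix (X t)) (𝒜.ix (X (t + 1)))) (𝒜.c (X t)) (W t) -
        W (t + 1)‖ ≤ κ * ‖W (t + 1)‖) ∧ (∀ t, ‖W t‖ ≤ 1) ∧ ‖W 0‖ = 1 := by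
  unfold NoChain at h
  push Not at h
  obtain ⟨n, x, v, hn, hx, hv, hv0, hnear, hder⟩ := h
  obtain ⟨j₀, hj₀, hmax⟩ := Finset.exists_max_image (Finset.range n) (fun j => ‖v j‖)
    ⟨0, Finset.mem_range.2 hn⟩
  rw [Finset.mem_range] at hj₀
  have hpos : 0 < ‖v j₀‖ := norm_pos_iff.2 (hv0 j₀ hj₀.le)
  refine ⟨n, fun t => x (((t + j₀) % (n : ℤ)).toNat),
    fun t => ‖v j₀‖⁻¹ • v (((t + j₀) % (n : ℤ)).toNat), hn, ?_, ?_, ?_, ?_, ?_⟩
  · intro t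
    have : (t + n + j₀) % (n : ℤ) = (t + j₀) % n := by
      rw [show t + n + j₀ = t + j₀ + n by ring, Int.add_emod_right]
    simp only [this]
  · intro t
    have h1 := ext_step hn x hx (t + j₀)
    show Near 𝒜 f κ (x _) (x _)
    rw [show t + 1 + (j₀ : ℤ) = t + j₀ + 1 by ring, h1.2]
    exact hnear _ h1.1
  · intro t
    have h1 := ext_step hn x hx (t + j₀)
    have h2 := ext_step hn v hv (t + j₀)
    show ‖fderiv ℝ (𝒜.loc f (𝒜.ix (x _)) (𝒜.ix (x _))) (𝒜.c (x _)) (‖v j₀‖⁻¹ • v _) -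
      ‖v j₀‖⁻¹ • v _‖ ≤ κ * ‖‖v j₀‖⁻¹ • v _‖
    rw [show t + 1 + (j₀ : ℤ) = t + j₀ + 1 by ring, h1.2, h2.2, map_smul, ← smul_sub, norm_smul,
      norm_smul, norm_inv, norm_norm]
    have h3 := mul_le_mul_of_nonneg_left (hder _ h1.1) (inv_nonneg.2 hpos.le)
    linarith
  · intro t
    have h2 := ext_step hn v hv (t + j₀)
    show ‖‖v j₀‖⁻¹ • v _‖ ≤ 1
    rw [norm_smul, norm_inv, norm_norm, inv_mul_le_iff₀ hpos, mul_one]
    exact hmax _ (Finset.mem_range.2 h2.1)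
  · show ‖‖v j₀‖⁻¹ • v (((0 + (j₀ : ℤ)) % (n : ℤ)).toNat)‖ = 1
    have h1 : ((0 + (j₀ : ℤ)) % (n : ℤ)).toNat = j₀ := by
      rw [zero_add, Int.emod_eq_of_lt (by omega) (by omega)]
      rfl
    rw [h1, norm_smul, norm_inv, norm_norm, inv_mul_cancel₀ hpos.ne']

lemma ulim {E : Type*} [TopologicalSpace E] {K : Set E} (hK : IsCompact K) (U : Ultrafilter ℕ)
    (g : ℕ → E) (hg : ∀ m, g m ∈ K) : ∃ a ∈ K, Tendsto g U (𝓝 a) := by
  obtain ⟨a, ha, h⟩ := hK.ultrafilter_le_nhds (U.map g) (by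
    rw [le_principal_iff]
    exact Filter.mem_map.2 (Filter.Eventually.of_forall hg))
  exact ⟨a, ha, h⟩

variable [IsManifold (𝓡 d) ∞ M]

lemma loc_contDiffAt (𝒜 : Atl d M) (i j : Fin 𝒜.q) {f : M → M}
    (hf : ContMDiff 𝓘(ℝ, V d) 𝓘(ℝ, V d) 1 f) {z : V d} (hz : z ∈ (𝒜.χ i).target)
    (hfz : f ((𝒜.χ i).symm z) ∈ (𝒜.χ j).source) : ContDiffAt ℝ 1 (𝒜.loc f i j) z := by
  have h1 : ContMDiffAt 𝓘(ℝ, V d) 𝓘(ℝ, V d) 1 (𝒜.χ i).symm z :=
    (contMDiffAt_symm_of_mem_maximalAtlas (𝒜.mem i) hz).of_le (by simp)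
  have h2 : ContMDiffAt 𝓘(ℝ, V d) 𝓘(ℝ, V d) 1 f ((𝒜.χ i).symm z) := hf.contMDiffAt
  have h3 : ContMDiffAt 𝓘(ℝ, V d) 𝓘(ℝ, V d) 1 (𝒜.χ j) (f ((𝒜.χ i).symm z)) :=
    (contMDiffAt_of_mem_maximalAtlas (𝒜.mem j) hfz).of_le (by simp)
  have h5 : ContMDiffAt 𝓘(ℝ, V d) 𝓘(ℝ, V d) 1 (f ∘ (𝒜.χ i).symm) z := ContMDiffAt.comp z h2 h1
  have h4 : ContMDiffAt 𝓘(ℝ, V d) 𝓘(ℝ, V d) 1 ((𝒜.χ j) ∘ (f ∘ (𝒜.χ i).symm)) z :=
    ContMDiffAt.comp z h3 h5
  exact ContMDiffAt.contDiffAt h4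

lemma limit_orbit [T2Space M] (𝒜 : Atl d M) (f : M → M)
    (hf : ContMDiff 𝓘(ℝ, V d) 𝓘(ℝ, V d) 1 f) (κ : ℕ → ℝ) (hκ : Tendsto κ atTop (𝓝 0))
    (hκ0 : ∀ m, 0 ≤ κ m) (U : Ultrafilter ℕ) (hU : (U : Filter ℕ) ≤ atTop)
    (X : ℕ → ℤ → M) (W : ℕ → ℤ → V d)
    (hnear : ∀ m t, Near 𝒜 f (κ m) (X m t) (X m (t + 1)))
    (hder : ∀ m t, ‖fderiv ℝ (𝒜.loc f (𝒜.ix (X m t)) (𝒜.ix (X m (t + 1)))) (𝒜.c (X m t))
      (W m t) - W m (t + 1)‖ ≤ κ m * ‖W m (t + 1)‖)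
    (hW : ∀ m t, ‖W m t‖ ≤ 1) (hW0 : ∀ m, ‖W m 0‖ = 1) :
    ∃ (i : ℤ → Fin 𝒜.q) (x : ℤ → M) (w : ℤ → V d),
      (∀ t, x t ∈ (𝒜.χ (i t)).source ∧ ‖𝒜.χ (i t) (x t)‖ ≤ 1) ∧
      (∀ t, Tendsto (fun m => X m t) U (𝓝 (x t))) ∧ (∀ t, f (x t) = x (t + 1)) ∧
      (∀ t, ‖w t‖ ≤ 1) ∧ ‖w 0‖ = 1 ∧
      (∀ t, fderiv ℝ (𝒜.loc f (i t) (i (t + 1))) (𝒜.χ (i t) (x t)) (w t) = w (t + 1)) := by
  have hκU : Tendsto κ U (𝓝 0) := hκ.mono_left hU
  have h1 : ∀ t : ℤ, ∃ i : Fin 𝒜.q, ∀ᶠ m in (U : Filter ℕ), 𝒜.ix (X m t) = i := by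
    intro t
    obtain ⟨i, hi⟩ := Ultrafilter.eq_pure_of_finite (U.map fun m => 𝒜.ix (X m t))
    refine ⟨i, ?_⟩
    have h2 : ({i} : Set (Fin 𝒜.q)) ∈ U.map fun m => 𝒜.ix (X m t) := by
      rw [hi]
      exact Ultrafilter.mem_pure.2 rfl
    exact h2
  choose i hi using h1
  have h2 : ∀ t : ℤ, ∃ ξ ∈ closedBall (0 : V d) 1, Tendsto (fun m => 𝒜.c (X m t)) U (𝓝 ξ) :=
    fun t => ulim (isCompact_closedBall _ _) U _ fun m =>
      mem_closedBall_zero_iff.2 (𝒜.ix_lt (X m t)).le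
  choose ξ hξ hξl using h2
  have h3 : ∀ t : ℤ, ∃ w ∈ closedBall (0 : V d) 1, Tendsto (fun m => W m t) U (𝓝 w) :=
    fun t => ulim (isCompact_closedBall _ _) U _ fun m => mem_closedBall_zero_iff.2 (hW m t)
  choose w hw hwl using h3
  have hsub : ∀ j : Fin 𝒜.q, closedBall (0 : V d) 1 ⊆ (𝒜.χ j).target := fun j =>
    (closedBall_subset_closedBall (by norm_num)).trans (𝒜.ball j)
  set x : ℤ → M := fun t => (𝒜.χ (i t)).symm (ξ t) with hx
  have hcs : ∀ t, ContinuousAt (𝒜.χ (i t)).symm (ξ t) := fun t =>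
    (𝒜.χ (i t)).continuousAt_symm (hsub _ (hξ t))
  have hxl : ∀ t, Tendsto (fun m => X m t) U (𝓝 (x t)) := by
    intro t
    have h4 := (hcs t).tendsto.comp (hξl t)
    refine h4.congr' ?_
    filter_upwards [hi t] with m hm
    show (𝒜.χ (i t)).symm (𝒜.χ (𝒜.ix (X m t)) (X m t)) = X m t
    rw [← hm]
    exact (𝒜.χ _).left_inv (𝒜.ix_src _)
  have hsrc : ∀ t, x t ∈ (𝒜.χ (i t)).source := fun t => (𝒜.χ (i t)).map_target (hsub _ (hξ t))
  have hχx : ∀ t, 𝒜.χ (i t) (x t) = ξ t := fun t => (𝒜.χ (i t)).right_inv (hsub _ (hξ t))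
  have hstep : ∀ t, f (x t) = x (t + 1) := by
    intro t
    have h5 : Tendsto (fun m => f (X m t)) U (𝓝 (f (x t))) :=
      (hf.continuous.tendsto _).comp (hxl t)
    have h6 : Tendsto (fun m => 𝒜.χ (𝒜.ix (X m (t + 1))) (f (X m t)) - 𝒜.c (X m (t + 1))) U
        (𝓝 0) := squeeze_zero_norm (fun m => (hnear m t).2) hκU
    have h7 : Tendsto (fun m => 𝒜.χ (𝒜.ix (X m (t + 1))) (f (X m t))) U (𝓝 (ξ (t + 1))) := by
      have h8 := h6.add (hξl (t + 1))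
      simpa using h8
    have h9 : Tendsto (fun m => f (X m t)) U (𝓝 (x (t + 1))) := by
      have h10 := (hcs (t + 1)).tendsto.comp h7
      refine h10.congr' ?_
      filter_upwards [hi (t + 1)] with m hm
      show (𝒜.χ (i (t + 1))).symm (𝒜.χ (𝒜.ix (X m (t + 1))) (f (X m t))) = f (X m t)
      rw [← hm]
      exact (𝒜.χ _).left_inv (hnear m t).1
    exact tendsto_nhds_unique h5 h9
  refine ⟨i, x, w, fun t => ⟨hsrc t, ?_⟩, hxl, hstep, fun t => mem_closedBall_zero_iff.1 (hw t),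
    ?_, ?_⟩
  · rw [hχx]
    exact mem_closedBall_zero_iff.1 (hξ t)
  · have h4 : Tendsto (fun m => ‖W m 0‖) U (𝓝 ‖w 0‖) := (hwl 0).norm
    have h5 : Tendsto (fun m => ‖W m 0‖) U (𝓝 1) := by
      simp only [hW0]
      exact tendsto_const_nhds
    exact tendsto_nhds_unique h4 h5
  · intro t
    rw [hχx]
    have hcd : ContDiffAt ℝ 1 (𝒜.loc f (i t) (i (t + 1))) (ξ t) := by
      refine loc_contDiffAt 𝒜 _ _ hf (hsub _ (hξ t)) ?_
      have h5 : f ((𝒜.χ (i t)).symm (ξ t)) = x (t + 1) := hstep t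
      rw [h5]
      exact hsrc (t + 1)
    have hcf : ContinuousAt (fderiv ℝ (𝒜.loc f (i t) (i (t + 1)))) (ξ t) :=
      (hcd.fderiv_right (m := 0) (by norm_num)).continuousAt
    have h6 : Tendsto (fun m => fderiv ℝ (𝒜.loc f (i t) (i (t + 1))) (𝒜.c (X m t)) (W m t)) U
        (𝓝 (fderiv ℝ (𝒜.loc f (i t) (i (t + 1))) (ξ t) (w t))) := by
      have h5 : Tendsto (fun m => fderiv ℝ (𝒜.loc f (i t) (i (t + 1))) (𝒜.c (X m t))) U
          (𝓝 (fderiv ℝ (𝒜.loc f (i t) (i (t + 1))) (ξ t))) := hcf.tendsto.comp (hξl t)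
      have hb : Continuous fun p : (V d →L[ℝ] V d) × V d => p.1 p.2 :=
        isBoundedBilinearMap_apply.continuous
      exact (hb.tendsto (fderiv ℝ (𝒜.loc f (i t) (i (t + 1))) (ξ t), w t)).comp
        (h5.prodMk_nhds (hwl t))
    have h7 : Tendsto (fun m => fderiv ℝ (𝒜.loc f (i t) (i (t + 1))) (𝒜.c (X m t)) (W m t) -
        W m (t + 1)) U (𝓝 0) := by
      refine squeeze_zero_norm' ?_ hκU
      filter_upwards [hi t, hi (t + 1)] with m hm hm'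
      have h8 := hder m t
      rw [hm, hm'] at h8
      refine h8.trans ?_
      have h9 := mul_le_mul_of_nonneg_left (hW m (t + 1)) (hκ0 m)
      linarith
    have h8 := tendsto_nhds_unique h7 (h6.sub (hwl (t + 1)))
    exact (sub_eq_zero.1 h8.symm)

end

section

variable {d : ℕ} {M : Type u} [MetricSpace M] [ChartedSpace (V d) M]

lemma near_dist (𝒜 : Atl d M) (f : M → M) (ε : ℝ) (hε : 0 < ε) :
    ∃ κ : ℝ, 0 < κ ∧ ∀ x y, Near 𝒜 f κ x y → dist (f x) y < ε := by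
  have h1 : ∀ j : Fin 𝒜.q, ∃ δ : ℝ, 0 < δ ∧ ∀ a ∈ closedBall (0 : V d) 2,
      ∀ b ∈ closedBall (0 : V d) 2, dist a b < δ →
        dist ((𝒜.χ j).symm a) ((𝒜.χ j).symm b) < ε := by
    intro j
    have hsub : closedBall (0 : V d) 2 ⊆ (𝒜.χ j).target :=
      (closedBall_subset_closedBall (by norm_num)).trans (𝒜.ball j)
    have h2 : UniformContinuousOn (𝒜.χ j).symm (closedBall (0 : V d) 2) :=
      (isCompact_closedBall (0 : V d) 2).uniformContinuousOn_of_continuous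
        ((𝒜.χ j).continuousOn_symm.mono hsub)
    obtain ⟨δ, hδ, h3⟩ := Metric.uniformContinuousOn_iff.1 h2 ε hε
    exact ⟨δ, hδ, h3⟩
  choose δ hδ hδ' using h1
  have h2 : ∀ᶠ κ in 𝓝[>] (0 : ℝ), ∀ j, κ < δ j := by
    rw [eventually_all]
    intro j
    filter_upwards [Ioo_mem_nhdsGT (hδ j)] with κ hκ
    exact hκ.2
  have h3 : ∀ᶠ κ in 𝓝[>] (0 : ℝ), 0 < κ ∧ κ < 1 := by
    filter_upwards [Ioo_mem_nhdsGT (one_pos : (0 : ℝ) < 1)] with κ hκ
    exact hκ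
  obtain ⟨κ, hκ, hκ0, hκ1⟩ := (h2.and h3).exists
  refine ⟨κ, hκ0, fun x y h => ?_⟩
  obtain ⟨h4, h5⟩ := h
  have h6 := 𝒜.ix_lt y
  have h7 : ‖𝒜.χ (𝒜.ix y) (f x)‖ ≤ 2 := by
    have h8 := norm_le_norm_add_norm_sub' (𝒜.χ (𝒜.ix y) (f x)) (𝒜.c y)
    have h9 : ‖𝒜.c y‖ < 1 := h6
    linarith
  have h8 := hδ' (𝒜.ix y) (𝒜.χ (𝒜.ix y) (f x)) (mem_closedBall_zero_iff.2 h7) (𝒜.c y)
    (mem_closedBall_zero_iff.2 (by have h9 : ‖𝒜.c y‖ < 1 := h6; linarith))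
    (by rw [dist_eq_norm]; exact h5.trans_lt (hκ _))
  rw [(𝒜.χ (𝒜.ix y)).left_inv h4] at h8
  have h9 : (𝒜.χ (𝒜.ix y)).symm (𝒜.c y) = y := (𝒜.χ (𝒜.ix y)).left_inv (𝒜.ix_src y)
  rw [h9] at h8
  exact h8

lemma chain_limit [CompactSpace M] (𝒜 : Atl d M) (f : M ≃ₜ M) (κ : ℕ → ℝ)
    (hκ : Tendsto κ atTop (𝓝 0)) (U : Ultrafilter ℕ) (hU : (U : Filter ℕ) ≤ atTop)
    (n : ℕ → ℕ) (X : ℕ → ℤ → M) (hn : ∀ m, 1 ≤ n m) (hper : ∀ m t, X m (t + n m) = X m t)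
    (hnear : ∀ m t, Near 𝒜 f (κ m) (X m t) (X m (t + 1))) (x0 : M)
    (hx : Tendsto (fun m => X m 0) U (𝓝 x0)) : x0 ∈ ChainRec f := by
  intro ε hε
  obtain ⟨δ, hδ, hfδ⟩ := Metric.uniformContinuous_iff.1
    (CompactSpace.uniformContinuous_of_continuous f.continuous) (ε / 3) (by positivity)
  obtain ⟨κ₀, hκ₀, hnd⟩ := near_dist 𝒜 f (ε / 3) (by positivity)
  have h1 : ∀ᶠ m in (U : Filter ℕ), dist (X m 0) x0 < min δ (ε / 3) :=
    Metric.tendsto_nhds.1 hx _ (lt_min hδ (by positivity))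
  have h2 : ∀ᶠ m in (U : Filter ℕ), κ m < κ₀ := (hκ.mono_left hU).eventually_lt_const hκ₀
  obtain ⟨m, hm1, hm2⟩ := (h1.and h2).exists
  set c : ℕ → M := fun j => if j = 0 ∨ j = n m then x0 else X m j with hc
  have hcd : ∀ j : ℕ, dist (X m j) (c j) < min δ (ε / 3) := by
    intro j
    by_cases h : j = 0 ∨ j = n m
    · have h3 : c j = x0 := if_pos h
      have h4 : X m j = X m 0 := by
        rcases h with rfl | rfl
        · rfl
        · have := hper m 0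
          rw [zero_add] at this
          exact this
      rw [h3, h4]
      exact hm1
    · have h3 : c j = X m j := if_neg h
      rw [h3, dist_self]
      exact lt_min hδ (by positivity)
  refine ⟨n m, c, hn m, if_pos (Or.inl rfl), if_pos (Or.inr rfl), fun j _ => ?_⟩
  have h3 : dist (f (X m j)) (X m (j + 1)) < ε / 3 := by
    have h4 := hnear m j
    exact hnd _ _ ⟨h4.1, h4.2.trans hm2.le⟩
  have h4 : dist (f (c j)) (f (X m j)) < ε / 3 := by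
    rw [dist_comm]
    exact hfδ ((hcd j).trans_le (min_le_left _ _))
  have h5 : dist (X m (j + 1)) (c (j + 1)) < ε / 3 := by
    have h6 := (hcd (j + 1)).trans_le (min_le_right _ _)
    push_cast at h6
    exact h6
  have h6 := dist_triangle4 (f (c j)) (f (X m j)) (X m (j + 1)) (c (j + 1))
  linarith

end

theorem main_SS : S_SS.{u} := by
  intro d M _ _ _ _ _ 𝒜 f hf hf' Nm hN hNoB
  by_contra hcon
  push Not at hcon
  set κ : ℕ → ℝ := fun m => 1 / ((m : ℝ) + 2) with hκdef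
  have hκ0 : ∀ m, 0 < κ m := fun m => by simp only [hκdef]; positivity
  have hκh : ∀ m, κ m ≤ 1 / 2 := fun m => by
    simp only [hκdef]
    apply one_div_le_one_div_of_le (by norm_num)
    have : (0 : ℝ) ≤ m := Nat.cast_nonneg m
    linarith
  have hκl : Tendsto κ atTop (𝓝 0) := by
    have h1 : Tendsto (fun m : ℕ => (m : ℝ) + 2) atTop atTop :=
      tendsto_atTop_add_const_right _ _ tendsto_natCast_atTop_atTop
    have h2 := tendsto_inv_atTop_zero.comp h1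
    refine h2.congr fun m => ?_
    simp [hκdef, one_div]
  have hex := fun m => unit_chain 𝒜 f (hcon (κ m) (hκ0 m) (hκh m))
  choose n X W hn hper hnear hder hW hW0 using hex
  obtain ⟨U, hU⟩ : ∃ U : Ultrafilter ℕ, (U : Filter ℕ) ≤ atTop :=
    ⟨Ultrafilter.of atTop, Ultrafilter.of_le _⟩
  obtain ⟨i, x, w, hsrc, hxl, hstep, hw, hw0, hd⟩ := limit_orbit 𝒜 f hf κ hκl
    (fun m => (hκ0 m).le) U hU X W hnear hder hW hW0
  have hcr : x 0 ∈ ChainRec f := chain_limit 𝒜 f κ hκl U hU n X hn hper hnear (x 0) (hxl 0)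
  set ν : ℤ → V d := fun t => es 𝒜 (i t) (𝒜.χ (i t) (x t)) (w t) with hν
  have hsub : ∀ j : Fin 𝒜.q, closedBall (0 : V d) 1 ⊆ (𝒜.χ j).target := fun j =>
    (closedBall_subset_closedBall (by norm_num)).trans (𝒜.ball j)
  have hdm : ∀ t, dm (V d) (𝒜.χ (i t)) (x t) (ν t) = w t := by
    intro t
    set z := 𝒜.χ (i t) (x t) with hz
    have hzt : z ∈ (𝒜.χ (i t)).target := (𝒜.χ (i t)).map_source (hsrc t).1
    have hzx : (𝒜.χ (i t)).symm z = x t := (𝒜.χ (i t)).left_inv (hsrc t).1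
    have h2 : (𝒜.χ (i t)) ∘ (𝒜.χ (i t)).symm =ᶠ[𝓝 z] id := by
      filter_upwards [(𝒜.χ (i t)).open_target.mem_nhds hzt] with y hy
      exact (𝒜.χ (i t)).right_inv hy
    have h3 := mfderiv_comp z (chart_mdiff 𝒜 (i t) ((𝒜.χ (i t)).map_target hzt))
      (symm_mdiff 𝒜 (i t) hzt)
    rw [h2.mfderiv_eq, mfderiv_id] at h3
    have h4 : dm (V d) (𝒜.χ (i t)) ((𝒜.χ (i t)).symm z) (es 𝒜 (i t) z (w t)) = w t :=
      (congrArg (fun T : V d →L[ℝ] V d => T (w t)) h3).symm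
    rw [hzx] at h4
    exact h4
  have hνs : ∀ t, dg (V d) f (x t) (ν t) = ν (t + 1) := by
    intro t
    have hfx : f (x t) ∈ (𝒜.χ (i (t + 1))).source := by
      rw [hstep t]
      exact (hsrc (t + 1)).1
    have h1 := fderiv_loc 𝒜 (i t) (i (t + 1)) hf (hsrc t).1 hfx (ν t)
    rw [hdm t, hd t] at h1
    have h2 := es_dm 𝒜 (i (t + 1)) hfx (dg (V d) f (x t) (ν t))
    rw [← h1, hstep t] at h2
    exact h2.symm
  have hfut : ∀ k : ℕ, f^[k] (x 0) = x k ∧ dg (V d) (f^[k]) (x 0) (ν 0) = ν k := by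
    intro k
    induction k with
    | zero =>
      refine ⟨rfl, ?_⟩
      show mfderiv 𝓘(ℝ, V d) 𝓘(ℝ, V d) id (x 0) (ν 0) = ν 0
      rw [mfderiv_id]
      rfl
    | succ k ih =>
      constructor
      · rw [Function.iterate_succ_apply', ih.1, hstep]
        push_cast
        rfl
      · rw [Function.iterate_succ', dg_comp _ _ (iter_smooth f hf k) hf, ih.1, ih.2, hνs]
        push_cast
        rfl
  have hback : ∀ t : ℤ, f.symm (x (t + 1)) = x t ∧ dg (V d) f.symm (x (t + 1)) (ν (t + 1)) = ν t := by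
    intro t
    refine ⟨by rw [← hstep t, f.symm_apply_apply], ?_⟩
    rw [← hνs t, ← hstep t]
    exact dg_inv _ _ hf hf' (fun y => f.symm_apply_apply y) _ _
  have hpast : ∀ k : ℕ, f.symm^[k] (x 0) = x (-(k : ℤ)) ∧
      dg (V d) (f.symm^[k]) (x 0) (ν 0) = ν (-(k : ℤ)) := by
    intro k
    induction k with
    | zero =>
      refine ⟨rfl, ?_⟩
      show mfderiv 𝓘(ℝ, V d) 𝓘(ℝ, V d) id (x 0) (ν 0) = ν 0
      rw [mfderiv_id]
      rfl
    | succ k ih =>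
      have h1 := hback (-((k : ℤ) + 1))
      have h2 : -((k : ℤ) + 1) + 1 = -(k : ℤ) := by ring
      rw [h2] at h1
      constructor
      · rw [Function.iterate_succ_apply', ih.1, h1.1]
        push_cast
        rfl
      · rw [Function.iterate_succ', dg_comp _ _ (iter_smooth f.symm hf' k) hf', ih.1, ih.2, h1.2]
        push_cast
        rfl
  obtain ⟨C, hC⟩ : ∃ C : ℝ, ∀ t, tn Nm (x t) (ν t) ≤ C := by
    choose C hC using compare_chart hN 𝒜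
    refine ⟨∑ j, |C j|, fun t => ?_⟩
    have h1 := (hC (i t) (𝒜.χ (i t) (x t)) (hsrc t).2 (w t)).1
    rw [(𝒜.χ (i t)).left_inv (hsrc t).1] at h1
    have h2 : C (i t) * ‖w t‖ ≤ |C (i t)| := by
      calc C (i t) * ‖w t‖ ≤ |C (i t)| * ‖w t‖ :=
            mul_le_mul_of_nonneg_right (le_abs_self _) (norm_nonneg _)
        _ ≤ |C (i t)| * 1 := mul_le_mul_of_nonneg_left (hw t) (abs_nonneg _)
        _ = |C (i t)| := mul_one _
    have h3 := Finset.single_le_sum (f := fun j => |C j|) (s := Finset.univ)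
      (fun j _ => abs_nonneg (C j)) (Finset.mem_univ (i t))
    exact (h1.trans h2).trans h3
  have h0 : ν 0 = 0 := by
    refine hNoB (x 0) hcr (ν 0) C (fun k => ?_) (fun k => ?_)
    · have h1 := hC k
      rw [← (hfut k).1, ← (hfut k).2] at h1
      exact h1
    · have h1 := hC (-(k : ℤ))
      rw [← (hpast k).1, ← (hpast k).2] at h1
      exact h1
  have h1 := hdm 0
  rw [h0, map_zero] at h1
  rw [← h1, norm_zero] at hw0
  exact one_ne_zero hw0.symm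

end Pool.Agent.H10.PT.SS
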